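import Mathlib

namespace Pool.Agent.Results.MP_490a28_an.No

open Set MeasureTheory Real intervalIntegral
open scoped InnerProductSpace

noncomputable section

/-- `u` solves `-u'' + V u = l u` on `(a, b)` with Dirichlet conditions -/
def IsEigFn (V : ℝ → ℝ) (a b l : ℝ) (u : ℝ → ℝ) : Prop :=
  ContinuousOn u (Icc a b) ∧ u a = 0 ∧ u b = 0 ∧ ∃ u' : ℝ → ℝ,
    ∀ x ∈ Ioo a b, HasDerivAt u (u' x) x ∧ HasDerivAt u' ((V x - l) * u x) x

/-- admissible eigenbasis: an orthonormal basis of `L²(a, b)` of real eigenfunctions, the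
eigenvalues being listed in nondecreasing order -/
def Admissible (V : ℝ → ℝ) (a b : ℝ) (lam : ℕ → ℝ) (u : ℕ → ℝ → ℝ) : Prop :=
  Monotone lam ∧ (∀ j, IsEigFn V a b (lam j) (u j)) ∧
  (∀ i j, ∫ x in a..b, u i x * u j x = if i = j then 1 else 0) ∧
  ∀ f : ℝ → ℝ, MemLp f 2 (volume.restrict (Ioc a b)) → (∀ j, ∫ x in a..b, u j x * f x = 0) →
    f =ᵐ[volume.restrict (Ioc a b)] 0

theorem ext_der {l : ℝ} {u : ℝ → ℝ} (h : IsEigFn id (-1) 1 l u) : ∃ w : ℝ → ℝ, Continuous w ∧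
    ∀ x ∈ Ioo (-1 : ℝ) 1, HasDerivAt u (w x) x ∧ HasDerivAt w ((x - l) * u x) x := by
  obtain ⟨hc, -, -, u', hd⟩ := h
  have h1 : Continuous fun x : ℝ => u (max (-1) (min x 1)) :=
    hc.comp_continuous (by fun_prop) fun x => ⟨le_max_left _ _, max_le (by norm_num) (min_le_right _ _)⟩
  have h2 : Continuous fun x : ℝ => (x - l) * u (max (-1) (min x 1)) :=
    (continuous_id.sub continuous_const).mul h1
  set w : ℝ → ℝ := fun x => u' 0 + ∫ t in (0 : ℝ)..x, (t - l) * u (max (-1) (min t 1)) with hw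
  have h3 : ∀ x, HasDerivAt w ((x - l) * u (max (-1) (min x 1))) x := fun x =>
    (h2.integral_hasStrictDerivAt 0 x).hasDerivAt.const_add _
  have h4 : ∀ x ∈ Ioo (-1 : ℝ) 1, HasDerivAt w ((x - l) * u x) x := fun x hx => by
    have := h3 x
    rwa [min_eq_left hx.2.le, max_eq_right hx.1.le] at this
  have h5 : EqOn u' w (Ioo (-1) 1) := isOpen_Ioo.eqOn_of_deriv_eq isPreconnected_Ioo
    (fun x hx => (hd x hx).2.differentiableAt.differentiableWithinAt)
    (fun x hx => (h4 x hx).differentiableAt.differentiableWithinAt)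
    (fun x hx => by rw [(hd x hx).2.deriv, (h4 x hx).deriv]; rfl) (x := 0) (by simp) (by simp [hw])
  exact ⟨w, continuous_iff_continuousAt.2 fun x => (h3 x).continuousAt,
    fun x hx => ⟨h5 hx ▸ (hd x hx).1, h4 x hx⟩⟩

theorem ii {f : ℝ → ℝ} (h : ContinuousOn f (Icc (-1) 1)) : IntervalIntegrable f volume (-1) 1 :=
  h.intervalIntegrable_of_Icc (by norm_num)

theorem mult {l : ℝ} {u : ℝ → ℝ} (h : IsEigFn id (-1) 1 l u) :
    ∫ x in (-1 : ℝ)..1, (-24 * l ^ 2 * x + 4 * l - 15 - 15 * x + 35 * x ^ 3) * u x ^ 2 = 0 := by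
  obtain ⟨w, hw, hd⟩ := ext_der h
  obtain ⟨hc, h0, h1, -⟩ := h
  have := integral_eq_sub_of_hasDerivAt_of_le (a := -1) (b := 1) (by norm_num)
    (f := fun x => (6 * l * (1 - x ^ 2) + 5 * (x - x ^ 3)) * w x ^ 2 -
      (-12 * l * x + 5 * (1 - 3 * x ^ 2)) * (u x * w x) +
      ((-6 * l - 15 * x) + (6 * l * (1 - x ^ 2) + 5 * (x - x ^ 3)) * (l - x)) * u x ^ 2)
    (f' := fun x => (-24 * l ^ 2 * x + 4 * l - 15 - 15 * x + 35 * x ^ 3) * u x ^ 2)
    (by fun_prop) (fun x hx => by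
      have a1 : HasDerivAt (fun x : ℝ => 6 * l * (1 - x ^ 2) + 5 * (x - x ^ 3))
          (-12 * l * x + 5 * (1 - 3 * x ^ 2)) x := by
        refine ((((hasDerivAt_pow 2 x).const_sub 1).const_mul (6 * l)).add
          (((hasDerivAt_id x).sub (hasDerivAt_pow 3 x)).const_mul 5)).congr_deriv ?_
        simp; ring
      have a2 : HasDerivAt (fun x : ℝ => -12 * l * x + 5 * (1 - 3 * x ^ 2))
          (-12 * l - 30 * x) x := by
        refine (((hasDerivAt_id x).const_mul (-12 * l)).add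
          ((((hasDerivAt_pow 2 x).const_mul 3).const_sub 1).const_mul 5)).congr_deriv ?_
        simp; ring
      have a3 : HasDerivAt (fun x : ℝ => -6 * l - 15 * x) (-15) x := by
        simpa using ((hasDerivAt_id x).const_mul 15).const_sub (-6 * l)
      refine (((a1.mul ((hd x hx).2.pow 2)).sub (a2.mul ((hd x hx).1.mul (hd x hx).2))).add
        ((a3.add (a1.mul ((hasDerivAt_id x).const_sub l))).mul ((hd x hx).1.pow 2))).congr_deriv ?_
      simp; ring)
    (ii (by fun_prop))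
  rw [this]
  simp [h0, h1]
  norm_num

theorem mean_bd {l : ℝ} {u : ℝ → ℝ} (h : IsEigFn id (-1) 1 l u)
    (hn : ∫ x in (-1 : ℝ)..1, u x * u x = 1) :
    4 * l - 65 ≤ 24 * l ^ 2 * ∫ x in (-1 : ℝ)..1, x * u x ^ 2 ∧
      24 * l ^ 2 * ∫ x in (-1 : ℝ)..1, x * u x ^ 2 ≤ 4 * l + 35 := by
  have h1 := mult h
  have hc := h.1
  have h2 : ∫ x in (-1 : ℝ)..1, (4 * l - 15 - 15 * x + 35 * x ^ 3) * u x ^ 2 =
      24 * l ^ 2 * ∫ x in (-1 : ℝ)..1, x * u x ^ 2 := by
    rw [← intervalIntegral.integral_const_mul, ← sub_eq_zero,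
      ← intervalIntegral.integral_sub (ii (by fun_prop)) (ii (by fun_prop)), ← h1]
    congr 1; ext x; ring
  have h3 : ∀ c : ℝ, ∫ x in (-1 : ℝ)..1, c * (u x * u x) = c := fun c => by
    rw [intervalIntegral.integral_const_mul, hn, mul_one]
  have h4 : ∀ x ∈ Icc (-1 : ℝ) 1, |-15 * x + 35 * x ^ 3| ≤ 50 := fun x hx => by
    have : |x| ≤ 1 := abs_le.2 hx
    have h5 : |x| ^ 3 ≤ 1 := pow_le_one₀ (abs_nonneg _) this
    refine (abs_add_le _ _).trans ?_
    rw [abs_mul, abs_mul, abs_pow]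
    norm_num
    linarith
  rw [← h2]
  constructor
  · rw [← h3 (4 * l - 65)]
    refine integral_mono_on (by norm_num) (ii (by fun_prop)) (ii (by fun_prop)) fun x hx => ?_
    nlinarith [abs_le.1 (h4 x hx), sq_nonneg (u x)]
  · rw [← h3 (4 * l + 35)]
    refine integral_mono_on (by norm_num) (ii (by fun_prop)) (ii (by fun_prop)) fun x hx => ?_
    nlinarith [abs_le.1 (h4 x hx), sq_nonneg (u x)]

theorem wr {l : ℝ} {u : ℝ → ℝ} (h : IsEigFn id (-1) 1 l u) (n : ℕ) :
    ∫ x in (-1 : ℝ)..1, u x * (((n * π) ^ 2 + x) * sin (n * π * x)) =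
      l * ∫ x in (-1 : ℝ)..1, sin (n * π * x) * u x := by
  obtain ⟨w, hw, hd⟩ := ext_der h
  obtain ⟨hc, h0, h1, -⟩ := h
  have := integral_eq_sub_of_hasDerivAt_of_le (a := -1) (b := 1) (by norm_num)
    (f := fun x => sin (n * π * x) * w x - n * π * cos (n * π * x) * u x)
    (f' := fun x => u x * (((n * π) ^ 2 + x) * sin (n * π * x)) - l * (sin (n * π * x) * u x))
    (by fun_prop) (fun x hx => by
      have a1 : HasDerivAt (fun x : ℝ => n * π * x) (n * π) x := by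
        simpa using (hasDerivAt_id x).const_mul (n * π)
      refine ((a1.sin.mul (hd x hx).2).sub
        ((a1.cos.const_mul (n * π)).mul (hd x hx).1)).congr_deriv ?_
      ring)
    (ii (by fun_prop))
  rw [intervalIntegral.integral_sub (ii (by fun_prop)) (ii (by fun_prop)),
    intervalIntegral.integral_const_mul] at this
  simp only [h0, h1, mul_one, mul_neg, sin_neg, sin_nat_mul_pi] at this
  linarith

theorem mem2 {f : ℝ → ℝ} (h : ContinuousOn f (Icc (-1) 1)) :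
    MemLp f 2 (volume.restrict (Ioc (-1 : ℝ) 1)) := by
  obtain ⟨C, hC⟩ := isCompact_Icc.exists_bound_of_continuousOn h
  refine MemLp.of_bound ((h.mono Ioc_subset_Icc_self).aestronglyMeasurable measurableSet_Ioc) C ?_
  filter_upwards [ae_restrict_mem measurableSet_Ioc] with x hx using hC x (Ioc_subset_Icc_self hx)

theorem inner_to {f : ℝ → ℝ} (hf : MemLp f 2 (volume.restrict (Ioc (-1 : ℝ) 1)))
    (g : Lp ℝ 2 (volume.restrict (Ioc (-1 : ℝ) 1))) :
    ⟪hf.toLp f, g⟫_ℝ = ∫ x in (-1 : ℝ)..1, f x * g x := by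
  rw [L2.inner_def, integral_of_le (by norm_num)]
  refine integral_congr_ae ?_
  filter_upwards [hf.coeFn_toLp] with x h1
  rw [h1, RCLike.inner_apply']; rfl

theorem inner_to2 {f g : ℝ → ℝ} (hf : MemLp f 2 (volume.restrict (Ioc (-1 : ℝ) 1)))
    (hg : MemLp g 2 (volume.restrict (Ioc (-1 : ℝ) 1))) :
    ⟪hf.toLp f, hg.toLp g⟫_ℝ = ∫ x in (-1 : ℝ)..1, f x * g x := by
  rw [inner_to, integral_of_le (by norm_num), integral_of_le (by norm_num)]
  refine integral_congr_ae ?_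
  filter_upwards [hg.coeFn_toLp] with x h1
  rw [h1]

theorem unbdd {lam : ℕ → ℝ} {u : ℕ → ℝ → ℝ} (h : Admissible id (-1) 1 lam u) (L : ℝ) :
    ∃ j, L < lam j := by
  obtain ⟨-, he, ho, hc⟩ := h
  by_contra hL
  push Not at hL
  set e : ℕ → Lp ℝ 2 (volume.restrict (Ioc (-1 : ℝ) 1)) := fun j => (mem2 (he j).1).toLp _
  have h1 : Orthonormal ℝ e := by
    rw [orthonormal_iff_ite]
    intro i j
    rw [inner_to2, ho]
  have h2 : (Submodule.span ℝ (range e))ᗮ = ⊥ := by
    rw [eq_bot_iff]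
    intro f hf
    have := hc f (Lp.memLp f) fun j => by
      rw [← inner_to (mem2 (he j).1)]
      exact hf _ (Submodule.subset_span ⟨j, rfl⟩)
    exact Lp.ext (this.trans (Lp.coeFn_zero _ _ _).symm)
  obtain ⟨n, hn⟩ := exists_nat_gt (|L| + 2)
  have hn1 : (1 : ℝ) ≤ n := by linarith [abs_nonneg L]
  have m1 := mem2 (f := fun x => sin (n * π * x)) (by fun_prop)
  have m2 := mem2 (f := fun x => ((n * π) ^ 2 + x) * sin (n * π * x)) (by fun_prop)
  have s1 := (HilbertBasis.mkOfOrthogonalEqBot h1 h2).hasSum_inner_mul_inner (m1.toLp _) (m2.toLp _)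
  have s2 := ((HilbertBasis.mkOfOrthogonalEqBot h1 h2).hasSum_inner_mul_inner (m1.toLp _)
    (m1.toLp _)).mul_left L
  simp only [HilbertBasis.coe_mkOfOrthogonalEqBot, e, inner_to2] at s1 s2
  have h3 := hasSum_le (fun j => by
    rw [wr (he j)]
    simp only [mul_comm (u j _) (sin _)]
    nlinarith [hL j, mul_self_nonneg (∫ x in (-1 : ℝ)..1, sin (n * π * x) * u j x)]) s1 s2
  have h4 : 0 < ∫ x in (-1 : ℝ)..1, (sin (n * π * x) * (((n * π) ^ 2 + x) * sin (n * π * x)) -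
      L * (sin (n * π * x) * sin (n * π * x))) := by
    have h5 : L + 1 < (n * π) ^ 2 := by
      have : n * 1 ≤ n * π := by gcongr; linarith [pi_gt_three]
      nlinarith [le_abs_self L]
    refine intervalIntegral.integral_pos (by norm_num) (by fun_prop) (fun x hx => ?_)
      ⟨1 / (2 * n), ⟨le_trans (by norm_num) (by positivity : (0 : ℝ) ≤ 1 / (2 * n)), ?_⟩, ?_⟩
    · nlinarith [hx.1, mul_self_nonneg (sin (n * π * x))]
    · rw [div_le_one (by positivity)]; linarith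
    · have : n * π * (1 / (2 * n)) = π / 2 := by field_simp
      rw [this, sin_pi_div_two]
      have : (0 : ℝ) ≤ 1 / (2 * n) := by positivity
      linarith
  rw [intervalIntegral.integral_sub (ii (by fun_prop)) (ii (by fun_prop)),
    intervalIntegral.integral_const_mul] at h4
  linarith

theorem result : ∃ (a b : ℝ) (V : ℝ → ℝ), a < b ∧ Continuous V ∧ ConvexOn ℝ univ V ∧
    ∀ (lam : ℕ → ℝ) (u : ℕ → ℝ → ℝ), Admissible V a b lam u →
      ¬ Monotone fun j => ∫ x in a..b, V x * u j x ^ 2 := by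
  refine ⟨-1, 1, id, by norm_num, continuous_id, convexOn_id convex_univ, fun lam u h hm => ?_⟩
  have hb := fun j => mean_bd (h.2.1 j) (by simpa using h.2.2.1 j j)
  obtain ⟨i, hi⟩ := unbdd h 20
  set m := ∫ x in (-1 : ℝ)..1, x * u i x ^ 2 with hm0
  have h1 : 0 < m := by
    have := (hb i).1
    by_contra h0
    nlinarith [mul_nonneg (sq_nonneg (lam i)) (neg_nonneg.2 (not_lt.1 h0))]
  obtain ⟨j, hj⟩ := unbdd h (1 / m)
  have h2 : m ≤ ∫ x in (-1 : ℝ)..1, x * u (max i j) x ^ 2 := hm (le_max_left i j)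
  have h3 := (hb (max i j)).2
  have h4 := h.1 (le_max_left i j)
  have h5 := hj.trans_le (h.1 (le_max_right i j))
  rw [div_lt_iff₀ h1] at h5
  nlinarith [mul_le_mul_of_nonneg_left h2 (sq_nonneg (lam (max i j)))]

end

end Pool.Agent.Results.MP_490a28_an.No
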